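import Mathlib
import Pool.Agent.Lib.lead.MS0b

set_option autoImplicit false

namespace Pool.Agent.Results.MP_682a55_lc.Undecidable

universe u

/-- An `H`-gain graph with vertex set `V` and edge set `E`: each edge has a reference
orientation from `src` to `tgt` and a gain with respect to it (loops and parallel edges allowed). -/
structure GainGraph (H : Type u) (V E : Type) where
  src : E → V
  tgt : E → V
  gain : E → H

namespace GainGraph
variable {H : Type u} [Group H] {V E : Type} (G : GainGraph H V E)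

/-- Starting vertex of an edge traversed forwards (`true`) or backwards (`false`). -/
def tail (d : E × Bool) : V := if d.2 then G.src d.1 else G.tgt d.1

/-- End vertex of an edge traversed forwards (`true`) or backwards (`false`). -/
def head (d : E × Bool) : V := if d.2 then G.tgt d.1 else G.src d.1

/-- Gain of an edge traversed forwards (`true`) or backwards (`false`). -/
def dgain (d : E × Bool) : H := if d.2 then G.gain d.1 else (G.gain d.1)⁻¹

/-- A traversal of a cycle: a nonempty closed walk with distinct edges and distinct vertices. -/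
def IsCycle (c : List (E × Bool)) : Prop :=
  c ≠ [] ∧ (c.map Prod.fst).Nodup ∧ (c.map G.tail).Nodup ∧ c.map G.head = (c.map G.tail).rotate 1

/-- The product of the gains along the cycle is the identity. -/
def Balanced (c : List (E × Bool)) : Prop := (c.map G.dgain).prod = 1

/-- Two vertices lie in the same connected component of the subgraph `(V, X)`. -/
def Conn (X : Set E) : V → V → Prop :=
  Relation.EqvGen fun a b => ∃ e ∈ X, G.src e = a ∧ G.tgt e = b

/-- Independence in the frame matroid: no cycle inside `X` is balanced, and two cycles inside `X`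
in the same component of `(V, X)` have the same edges. -/
def Indep (X : Set E) : Prop :=
  (∀ c, G.IsCycle c → (∀ d ∈ c, d.1 ∈ X) → ¬ G.Balanced c) ∧
  ∀ c c', G.IsCycle c → G.IsCycle c' → (∀ d ∈ c, d.1 ∈ X) → (∀ d ∈ c', d.1 ∈ X) →
    (∃ d ∈ c, ∃ d' ∈ c', G.Conn X (G.tail d) (G.tail d')) →
      ∀ e, e ∈ c.map Prod.fst ↔ e ∈ c'.map Prod.fst

end GainGraph

/-- The largest size of an independent set is 3. -/
def Rank3 {E : Type} (Ind : Set E → Prop) : Prop :=
  (∃ X, Ind X ∧ X.ncard = 3) ∧ ∀ X, Ind X → X.ncard ≤ 3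

open LeadMS0

lemma exists_gains (H : Type u) [Group H] [Infinite H] (A B : Type) [Finite A] [Finite B] :
    ∃ (g : A → H) (h : B → H), Function.Injective fun q : A × B => g q.1 * h q.2 := by
  classical
  obtain ⟨m, ⟨eB⟩⟩ := Finite.exists_equiv_fin B
  let h : B → H := fun b => Infinite.natEmbedding H (eB b)
  have hh : Function.Injective h := fun b b' e =>
    eB.injective (Fin.ext ((Infinite.natEmbedding H).injective e))
  have key : ∀ n, ∃ g : Fin n → H, ∀ a a' b b', g a * h b = g a' * h b' → a = a' := by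
    intro n
    induction n with
    | zero => exact ⟨Fin.elim0, fun a => a.elim0⟩
    | succ n ih =>
      obtain ⟨g, hg⟩ := ih
      obtain ⟨x, hx⟩ := (Set.finite_range fun p : Fin n × B × B =>
        g p.1 * h p.2.1 * (h p.2.2)⁻¹).exists_notMem
      refine ⟨Fin.cons x g, fun a a' b b' => ?_⟩
      refine Fin.cases ?_ (fun a => ?_) a <;> refine Fin.cases ?_ (fun a' => ?_) a' <;>
        simp only [Fin.cons_zero, Fin.cons_succ] <;> intro e
      · trivial
      · exact absurd ⟨(a', b', b), by simp [← e]⟩ hx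
      · exact absurd ⟨(a, b, b'), by simp [e]⟩ hx
      · rw [hg _ _ _ _ e]
  obtain ⟨n, ⟨eA⟩⟩ := Finite.exists_equiv_fin A
  obtain ⟨g, hg⟩ := key n
  refine ⟨fun a => g (eA a), h, fun q q' e => ?_⟩
  have h1 := eA.injective (hg _ _ _ _ e)
  simp only [h1, mul_right_inj] at e
  exact Prod.ext h1 (hh e)

section model
variable {H : Type u} [Group H] {A B : Type} (g : A → H) (h : B → H)

def tri : GainGraph H (Fin 3) (A ⊕ B ⊕ A × B) where
  src
    | .inl _ => 0
    | .inr (.inl _) => 1
    | .inr (.inr _) => 0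
  tgt
    | .inl _ => 1
    | .inr (.inl _) => 2
    | .inr (.inr _) => 2
  gain
    | .inl a => g a
    | .inr (.inl b) => h b
    | .inr (.inr q) => g q.1 * h q.2

def cl : A ⊕ B ⊕ A × B → ℕ
  | .inl _ => 0
  | .inr (.inl _) => 1
  | .inr (.inr _) => 2

omit [Group H] in
lemma cl_le (e : A ⊕ B ⊕ A × B) : cl e ≤ 2 := by
  rcases e with _ | _ | _ <;> simp [cl]

lemma digon {e e' : A ⊕ B ⊕ A × B} (hne : e ≠ e') (hc : cl e = cl e') :
    (tri g h).IsCycle [(e, true), (e', false)] := by
  refine ⟨by simp, by simpa using hne, ?_, ?_⟩ <;>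
  rcases e with _ | _ | _ <;> rcases e' with _ | _ | _ <;>
    simp [cl, tri, GainGraph.tail, GainGraph.head] at hc ⊢

lemma triangle {e0 e1 e2 : A ⊕ B ⊕ A × B} (h0 : cl e0 = 0) (h1 : cl e1 = 1) (h2 : cl e2 = 2) :
    (tri g h).IsCycle [(e0, true), (e1, true), (e2, false)] := by
  rcases e0 with _ | _ | _ <;> rcases e1 with _ | _ | _ <;> rcases e2 with _ | _ | _ <;>
    simp [cl] at h0 h1 h2
  simp [GainGraph.IsCycle, tri, GainGraph.tail, GainGraph.head]

lemma six {g h γ : H} (hne : γ ≠ g * h) : g * (h * γ⁻¹) ≠ 1 ∧ h * (γ⁻¹ * g) ≠ 1 ∧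
    γ⁻¹ * (g * h) ≠ 1 ∧ γ * (h⁻¹ * g⁻¹) ≠ 1 ∧ h⁻¹ * (g⁻¹ * γ) ≠ 1 ∧ g⁻¹ * (γ * h⁻¹) ≠ 1 := by
  refine ⟨fun e => hne ?_, fun e => hne ?_, fun e => hne ?_, fun e => hne ?_, fun e => hne ?_,
    fun e => hne ?_⟩
  · calc γ = (g * (h * γ⁻¹))⁻¹ * (g * h) := by group
      _ = g * h := by rw [e]; group
  · calc γ = g * (h * (γ⁻¹ * g))⁻¹ * h := by group
      _ = g * h := by rw [e]; group
  · calc γ = g * h * (γ⁻¹ * (g * h))⁻¹ := by group
      _ = g * h := by rw [e]; group
  · calc γ = γ * (h⁻¹ * g⁻¹) * (g * h) := by group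
      _ = g * h := by rw [e]; group
  · calc γ = g * h * (h⁻¹ * (g⁻¹ * γ)) := by group
      _ = g * h := by rw [e]; group
  · calc γ = g * (g⁻¹ * (γ * h⁻¹)) * h := by group
      _ = g * h := by rw [e]; group

lemma classify (a : A) (b : B) (q : A × B) (hq : g q.1 * h q.2 ≠ g a * h b)
    (c : List ((A ⊕ B ⊕ A × B) × Bool)) (hc : (tri g h).IsCycle c)
    (hX : ∀ d ∈ c, d.1 ∈ ({.inl a, .inr (.inl b), .inr (.inr q)} : Set (A ⊕ B ⊕ A × B))) :
    ¬ (tri g h).Balanced c ∧ ∀ e, e ∈ c.map Prod.fst ↔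
      e ∈ ({.inl a, .inr (.inl b), .inr (.inr q)} : Set (A ⊕ B ⊕ A × B)) := by
  obtain ⟨h1, h2, h3, h4⟩ := hc
  have hl : c.length ≤ 3 := by simpa using h3.length_le_card
  obtain ⟨s1, s2, s3, s4, s5, s6⟩ := six hq
  have hg : (tri g h).gain (.inr (.inr q)) = g q.1 * h q.2 := rfl
  generalize g q.1 * h q.2 = γ at *
  have ga : (tri g h).gain (.inl a) = g a := rfl
  have gb : (tri g h).gain (.inr (.inl b)) = h b := rfl
  match c, hl with
  | [], _ => exact absurd rfl h1
  | [(e1, d1)], _ =>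
    exfalso
    rcases hX (e1, d1) (by simp) with rfl | rfl | rfl <;> cases d1 <;>
      simp [tri, GainGraph.tail, GainGraph.head] at h4
  | [(e1, d1), (e2, d2)], _ =>
    exfalso
    rcases hX (e1, d1) (by simp) with rfl | rfl | rfl <;>
    rcases hX (e2, d2) (by simp) with rfl | rfl | rfl <;> cases d1 <;> cases d2 <;>
      simp [tri, GainGraph.tail, GainGraph.head] at h2 h4
  | [(e1, d1), (e2, d2), (e3, d3)], _ =>
    rcases hX (e1, d1) (by simp) with rfl | rfl | rfl <;>
    rcases hX (e2, d2) (by simp) with rfl | rfl | rfl <;>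
    rcases hX (e3, d3) (by simp) with rfl | rfl | rfl <;>
    first
      | (exfalso; simp at h2; done)
      | (cases d1 <;> cases d2 <;> cases d3 <;>
          first
            | (exfalso; simp [tri, GainGraph.tail, GainGraph.head] at h4; done)
            | (refine ⟨?_, fun e => by simp only [List.map, List.mem_cons, List.not_mem_nil,
                  Set.mem_insert_iff, Set.mem_singleton_iff]; tauto⟩
               simp only [GainGraph.Balanced, GainGraph.dgain, List.map, List.prod_cons,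
                 List.prod_nil, mul_one, ga, gb, hg, if_true, Bool.false_eq_true, if_false]
               assumption))

lemma indep_tri (a : A) (b : B) (q : A × B) (hq : g q.1 * h q.2 ≠ g a * h b) :
    (tri g h).Indep {.inl a, .inr (.inl b), .inr (.inr q)} :=
  ⟨fun c hc hX => (classify g h a b q hq c hc hX).1, fun c c' hc hc' hX hX' _ e =>
    ((classify g h a b q hq c hc hX).2 e).trans ((classify g h a b q hq c' hc' hX').2 e).symm⟩

lemma rank_le [Finite A] [Finite B] {X : Set (A ⊕ B ⊕ A × B)} (hX : (tri g h).Indep X) :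
    X.ncard ≤ 3 := by
  have F1 : ∀ e ∈ X, ∀ e' ∈ X, ∀ e'' ∈ X, e ≠ e' → e ≠ e'' → e' ≠ e'' → cl e = cl e' →
      cl e = cl e'' → False := by
    intro e he e' he' e'' he'' n1 n2 n3 c1 c2
    have := (hX.2 _ _ (digon g h n1 c1) (digon g h n2 c2) (by simp [he, he']) (by simp [he, he''])
      ⟨(e, true), by simp, (e, true), by simp, .refl _⟩ e').1 (by simp)
    simp [n1.symm, n3] at this
  have F2 : ∀ e ∈ X, ∀ e' ∈ X, ∀ f ∈ X, ∀ f' ∈ X, e ≠ e' → f ≠ f' → cl e = cl e' →
      cl f = cl f' → cl e ≠ cl f → False := by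
    intro e he e' he' f hf f' hf' n1 n2 c1 c2 c3
    have := (hX.2 _ _ (digon g h n1 c1) (digon g h n2 c2) (by simp [he, he']) (by simp [hf, hf'])
      ?_ e).1 (by simp)
    · simp only [List.map, List.mem_cons, List.not_mem_nil, or_false] at this
      rcases this with rfl | rfl
      · exact c3 rfl
      · exact c3 c2.symm
    · have : ∃ d ∈ [(e, true), (e', false)], ∃ d' ∈ [(f, true), (f', false)],
          (tri g h).tail d = (tri g h).tail d' := by
        rcases e with _ | _ | _ <;> rcases e' with _ | _ | _ <;> simp [cl] at c1 <;>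
        rcases f with _ | _ | _ <;> rcases f' with _ | _ | _ <;> simp [cl] at c2 c3 <;>
        simp [tri, GainGraph.tail]
      obtain ⟨d, hd, d', hd', e⟩ := this
      exact ⟨d, hd, d', hd', e ▸ .refl _⟩
  have F3' : ∀ e0 ∈ X, ∀ e1 ∈ X, ∀ e2 ∈ X, ∀ e ∈ X, cl e0 = 0 → cl e1 = 1 → cl e2 = 2 →
      e ≠ e0 → e ≠ e1 → e ≠ e2 → False := by
    intro e0 h0 e1 h1 e2 h2 e he c0 c1 c2 n0 n1 n2
    have T := triangle g h c0 c1 c2
    have key : ∀ f s, (f, s) ∈ [(e0, true), (e1, true), (e2, false)] → f ∈ X → e ≠ f →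
        cl e = cl f → False := by
      intro f s hf hfX n c
      have := (hX.2 _ _ (show (tri g h).IsCycle [(f, s), (e, !s)] from ?_) T (by simp [hfX, he])
        (by simp [h0, h1, h2]) ⟨(f, s), by simp, (f, s), hf, .refl _⟩ e).1 (by simp)
      · simp [n0, n1, n2] at this
      · cases s
        · obtain ⟨d1, d2, d3, d4⟩ := digon g h n c
          simp only [List.map, List.nodup_cons, List.mem_cons, List.not_mem_nil, or_false,
            List.rotate_cons_succ, List.rotate_zero, List.cons_append, List.nil_append,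
            List.cons.injEq, and_true] at d2 d3 d4
          refine ⟨by simp, by simpa using n.symm, ?_, ?_⟩
          · simpa using fun h => d3.1 h.symm
          · simp [d4.1, d4.2]
        · exact digon g h n.symm c.symm
    have := cl_le e
    rcases (by omega : cl e = 0 ∨ cl e = 1 ∨ cl e = 2) with c | c | c
    · exact key e0 true (by simp) h0 n0 (by omega)
    · exact key e1 true (by simp) h1 n1 (by omega)
    · exact key e2 false (by simp) h2 n2 (by omega)
  have F3 : ∀ e ∈ X, ∀ e' ∈ X, ∀ f ∈ X, ∀ f' ∈ X, e' ≠ e → e' ≠ f → e' ≠ f' →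
      cl e ≠ cl f → cl e ≠ cl f' → cl f ≠ cl f' → False := by
    intro e he e' he' f hf f' hf' n1 n2 n3 c1 c2 c3
    have := cl_le e
    have := cl_le f
    have := cl_le f'
    rcases (by omega : (cl e = 0 ∧ cl f = 1 ∧ cl f' = 2) ∨ (cl e = 0 ∧ cl f' = 1 ∧ cl f = 2) ∨
      (cl f = 0 ∧ cl e = 1 ∧ cl f' = 2) ∨ (cl f = 0 ∧ cl f' = 1 ∧ cl e = 2) ∨
      (cl f' = 0 ∧ cl e = 1 ∧ cl f = 2) ∨ (cl f' = 0 ∧ cl f = 1 ∧ cl e = 2)) with
      ⟨a, b, c⟩ | ⟨a, b, c⟩ | ⟨a, b, c⟩ | ⟨a, b, c⟩ | ⟨a, b, c⟩ | ⟨a, b, c⟩ <;>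
    exact F3' _ (by assumption) _ (by assumption) _ (by assumption) e' he' a b c
      (by assumption) (by assumption) (by assumption)
  by_contra hlt
  obtain ⟨a, b, c, d, ha, hb, hc, hd, n1, n2, n3, n4, n5, n6⟩ :=
    (Set.three_lt_ncard_iff (Set.toFinite X)).1 (not_le.1 hlt)
  have t1 := F1 a ha b hb c hc n1 n2 n4
  have t2 := F1 a ha b hb d hd n1 n3 n5
  have t3 := F1 a ha c hc d hd n2 n3 n6
  have t4 := F1 b hb c hc d hd n4 n5 n6
  have t5 := F2 a ha b hb c hc d hd n1 n6
  have t6 := F2 a ha c hc b hb d hd n2 n5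
  have t7 := F2 a ha d hd b hb c hc n3 n4
  have t8 := F3 b hb a ha c hc d hd n1 n2 n3
  have t9 := F3 a ha b hb c hc d hd n1.symm n4 n5
  have t10 := F3 a ha c hc b hb d hd n2.symm n4.symm n6
  have t11 := F3 a ha d hd b hb c hc n3.symm n5.symm n6.symm
  have b1 := cl_le a
  have b2 := cl_le b
  have b3 := cl_le c
  have b4 := cl_le d
  clear F1 F2 F3 F3'
  revert t1 t2 t3 t4 t5 t6 t7 t8 t9 t10 t11 b1 b2 b3 b4
  generalize cl a = x
  generalize cl b = y
  generalize cl c = z
  generalize cl d = w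
  intro t1 t2 t3 t4 t5 t6 t7 t8 t9 t10 t11 b1 b2 b3 b4
  interval_cases x <;> interval_cases y <;> interval_cases z <;> interval_cases w <;>
    first
      | exact t1 rfl rfl | exact t2 rfl rfl | exact t3 rfl rfl | exact t4 rfl rfl
      | exact t5 rfl rfl (by decide) | exact t6 rfl rfl (by decide) | exact t7 rfl rfl (by decide)
      | exact t8 (by decide) (by decide) (by decide) | exact t9 (by decide) (by decide) (by decide)
      | exact t10 (by decide) (by decide) (by decide)
      | exact t11 (by decide) (by decide) (by decide)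

end model

/-- For every infinite group `H`, the `MS₀` theory of the class of rank-3 `H`-gain-graphic
matroids is undecidable. -/
theorem result : Function.Injective Fm.code ∧ ∀ (H : Type u) [Group H] [Infinite H],
    ¬ ∃ g : ℕ → Bool, Computable g ∧ ∀ φ : Fm, (∀ n, ¬ φ.Free n) →
      (g φ.code = true ↔ ∀ (V E : Type) [Finite V] [Finite E] (G : GainGraph H V E),
        Rank3 G.Indep → ∀ ρ : ℕ → Set E, φ.Sat G.Indep ρ) := by
  refine ⟨Fm.code_inj, fun H _ _ ⟨g0, hg0, h0⟩ => ?_⟩
  refine undec (fun E Ind => ∃ (V : Type) (_ : Finite V) (_ : Finite E) (G : GainGraph H V E),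
    Ind = G.Indep ∧ Rank3 G.Indep) (fun A B _ _ _ _ => ?_) ⟨g0, hg0, fun φ hφ => ?_⟩
  · obtain ⟨g, h, hi⟩ := exists_gains H A B
    refine ⟨A ⊕ B ⊕ A × B, (tri g h).Indep, ⟨Fin 3, inferInstance, inferInstance, tri g h, rfl,
      ?_, fun X => rank_le g h⟩, .inl, fun b => .inr (.inl b), fun q => .inr (.inr q),
      Sum.inl_injective, fun _ _ e => by simpa using e, fun a b q => ⟨fun hT => ?_, ?_⟩⟩
    · obtain ⟨a⟩ := ‹Nonempty A›
      obtain ⟨b, b', hb⟩ := exists_pair_ne B
      refine ⟨_, indep_tri g h a b (a, b') fun e => hb ?_, ?_⟩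
      · exact (congrArg Prod.snd (hi (a₁ := (a, b')) (a₂ := (a, b)) e)).symm
      · exact Set.ncard_eq_three.2 ⟨_, _, _, by simp, by simp, by simp, rfl⟩
    · by_contra hq
      exact hT _ (by simp) (by simp) (by simp)
        (indep_tri g h a b q fun e => hq (hi (a₁ := q) (a₂ := (a, b)) e))
    · rintro rfl W h1 h2 h3 hW
      refine hW.1 _ (triangle g h (e0 := .inl a) (e1 := .inr (.inl b)) (e2 := .inr (.inr (a, b)))
        rfl rfl rfl) (by simp [h1, h2, h3]) ?_
      simp [GainGraph.Balanced, GainGraph.dgain, tri]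
  · rw [h0 φ hφ]
    constructor
    · rintro h E Ind ⟨V, _, _, G, rfl, hG⟩
      exact h V E G hG
    · intro h V E _ _ G hG
      exact h E _ ⟨V, ‹_›, ‹_›, G, rfl, hG⟩

end Pool.Agent.Results.MP_682a55_lc.Undecidable
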